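import Pool.Agent.Helper78.SG.Weak

/-!
# ES: the far zeros are harmless in measure
-/

set_option autoImplicit false
open MeasureTheory Set Filter Topology
open Pool.Agent.Helper57.Zeta Pool.Agent.Helper57.PC Pool.Agent.Helper57.LH Pool.Agent.Helper78.SG
open scoped ContDiff

namespace Pool.Agent.Helper60.ES

/-- a second dominating function: `(1 + |x|) ^ (-2)`, from decay `-3` beyond `D` -/
theorem dg_far {D x : ℝ} (hD : 1 ≤ D) (hx : D < |x|) : (1 + |x|) ^ (-(3 : ℝ)) ≤ 1 / D * dg16 x := by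
  have h0 : 0 < 1 + |x| := by positivity
  unfold dg16
  rw [Real.norm_eq_abs]
  have h1 : (1 + |x|) ^ (-(3 : ℝ)) = (1 + |x|) ^ (-(1 : ℝ)) * (1 + |x|) ^ (-2 : ℝ) := by
    rw [← Real.rpow_add h0]
    norm_num
  rw [h1]
  refine mul_le_mul_of_nonneg_right ?_ (by positivity)
  rw [Real.rpow_neg h0.le, Real.rpow_one, one_div]
  exact inv_anti₀ (by linarith) (by linarith)

open Classical in
theorem int_rpow_far (f : TF) {r : ℝ} (hr : 0 < r) (hr1 : r ≤ 1) : ∃ C : ℝ, 0 < C ∧ ∀ L D : ℝ, 1 ≤ L → 1 ≤ D → ∀ F : Finset ZS,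
    Integrable (fun t => (∑ ρ ∈ F, mx ρ * (if D < L * |t - (ρ : ℂ).im| then |kz f.h L t ρ| else 0)) ^ r) ∧
    ∫ t, (∑ ρ ∈ F, mx ρ * (if D < L * |t - (ρ : ℂ).im| then |kz f.h L t ρ| else 0)) ^ r ≤
      C / (L * D) * ∑ ρ ∈ F, mx ρ * Real.exp (r * |L * ((ρ : ℂ).re - 1 / 2)|) := by
  obtain ⟨k, hk⟩ := exists_nat_ge (3 / r)
  have hkr : 3 ≤ k * r := by rwa [div_le_iff₀ hr] at hk
  obtain ⟨C0, hC0, hdec⟩ := ker_decay f k
  have hI0 : 0 ≤ ∫ x, dg16 x := integral_nonneg dg16_nonneg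
  refine ⟨C0 ^ r * (∫ x, dg16 x) + 1, by positivity, ?_⟩
  intro L D hL hD F
  have hL0 : 0 < L := by linarith
  have hD0 : 0 < D := by linarith
  -- one zero
  have hone : ∀ (ρ : ZS) (t : ℝ), (mx ρ * (if D < L * |t - (ρ : ℂ).im| then |kz f.h L t ρ| else 0)) ^ r ≤
      mx ρ * (C0 ^ r * Real.exp (r * |L * ((ρ : ℂ).re - 1 / 2)|) / D) * dg16 (L * (t - (ρ : ℂ).im)) := by
    intro ρ t
    have hdg := dg16_nonneg (L * (t - (ρ : ℂ).im))
    have hm := mx_nonneg (ρ : ℂ)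
    split_ifs with hfar
    swap
    · rw [mul_zero, Real.zero_rpow hr.ne']
      positivity
    rw [Real.mul_rpow (mx_nonneg _) (abs_nonneg _)]
    have h1 : |kz f.h L t ρ| ≤ C0 * Real.exp |L * ((ρ : ℂ).re - 1 / 2)| /
        (1 + |L * (t - (ρ : ℂ).im)|) ^ k := hdec _ _
    have hp : 0 < 1 + |L * (t - (ρ : ℂ).im)| := by positivity
    have h2 : |kz f.h L t ρ| ^ r ≤ (C0 * Real.exp |L * ((ρ : ℂ).re - 1 / 2)| /
        (1 + |L * (t - (ρ : ℂ).im)|) ^ k) ^ r := Real.rpow_le_rpow (abs_nonneg _) h1 hr.le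
    have h3 : (C0 * Real.exp |L * ((ρ : ℂ).re - 1 / 2)| /
        (1 + |L * (t - (ρ : ℂ).im)|) ^ k) ^ r =
        C0 ^ r * Real.exp (r * |L * ((ρ : ℂ).re - 1 / 2)|) *
          (1 + |L * (t - (ρ : ℂ).im)|) ^ (-(k * r)) := by
      rw [Real.div_rpow (by positivity) (by positivity), Real.mul_rpow hC0.le (Real.exp_pos _).le,
        ← Real.exp_mul, mul_comm |L * ((ρ : ℂ).re - 1 / 2)| r, Real.rpow_neg hp.le,
        ← Real.rpow_natCast, ← Real.rpow_mul hp.le]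
      rfl
    have hfar' : D < |L * (t - (ρ : ℂ).im)| := by
      rw [abs_mul, abs_of_pos hL0]
      exact hfar
    have h4 : (1 + |L * (t - (ρ : ℂ).im)|) ^ (-((k : ℝ) * r)) ≤ 1 / D * dg16 (L * (t - (ρ : ℂ).im)) := by
      refine le_trans ?_ (dg_far hD hfar')
      exact Real.rpow_le_rpow_of_exponent_le (by linarith [abs_nonneg (L * (t - (ρ : ℂ).im))])
        (by linarith)
    calc mx ρ ^ r * |kz f.h L t ρ| ^ r
        ≤ mx ρ * (C0 ^ r * Real.exp (r * |L * ((ρ : ℂ).re - 1 / 2)|) *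
          (1 + |L * (t - (ρ : ℂ).im)|) ^ (-((k : ℝ) * r))) := by
          rw [← h3]
          exact mul_le_mul (mxr16 hr hr1 _) h2 (Real.rpow_nonneg (abs_nonneg _) _) (mx_nonneg _)
      _ ≤ mx ρ * (C0 ^ r * Real.exp (r * |L * ((ρ : ℂ).re - 1 / 2)|) *
          (1 / D * dg16 (L * (t - (ρ : ℂ).im)))) := by
          refine mul_le_mul_of_nonneg_left ?_ (mx_nonneg _)
          exact mul_le_mul_of_nonneg_left h4 (by positivity)
      _ = _ := by ring
  have hnn : ∀ (ρ : ZS) (t : ℝ), 0 ≤ mx ρ * (if D < L * |t - (ρ : ℂ).im| then |kz f.h L t ρ| else 0) := by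
    intro ρ t
    refine mul_nonneg (mx_nonneg _) ?_
    split_ifs
    · exact abs_nonneg _
    · exact le_rfl
  have hdom : ∀ t, (∑ ρ ∈ F, mx ρ * (if D < L * |t - (ρ : ℂ).im| then |kz f.h L t ρ| else 0)) ^ r ≤
      ∑ ρ ∈ F, mx ρ * (C0 ^ r * Real.exp (r * |L * ((ρ : ℂ).re - 1 / 2)|) / D) *
        dg16 (L * (t - (ρ : ℂ).im)) := by
    intro t
    refine (sub16 hr hr1 F (fun ρ : ZS => mx ρ * (if D < L * |t - (ρ : ℂ).im| then |kz f.h L t ρ| else 0))
      (fun ρ => hnn ρ t)).trans ?_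
    exact Finset.sum_le_sum fun ρ _ => hone ρ t
  have hDint : Integrable (fun t => ∑ ρ ∈ F, mx ρ * (C0 ^ r *
      Real.exp (r * |L * ((ρ : ℂ).re - 1 / 2)|) / D) * dg16 (L * (t - (ρ : ℂ).im))) :=
    integrable_finset_sum _ fun ρ _ => (dg16_shift L hL0 _).1.const_mul _
  have hmeas : Measurable (fun t => (∑ ρ ∈ F, mx ρ * (if D < L * |t - (ρ : ℂ).im| then |kz f.h L t ρ| else 0)) ^ r) := by
    refine Measurable.pow_const ?_ r
    refine Finset.measurable_sum _ fun ρ _ => measurable_const.mul ?_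
    refine Measurable.ite ?_ (kz_cont f L ρ).abs.measurable measurable_const
    exact measurableSet_lt measurable_const (by fun_prop)
  have hint : Integrable (fun t => (∑ ρ ∈ F, mx ρ * (if D < L * |t - (ρ : ℂ).im| then |kz f.h L t ρ| else 0)) ^ r) := by
    refine hDint.mono' hmeas.aestronglyMeasurable (Filter.Eventually.of_forall fun t => ?_)
    rw [Real.norm_eq_abs, abs_of_nonneg (Real.rpow_nonneg (Finset.sum_nonneg fun ρ _ => hnn ρ t) _)]
    exact hdom t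
  refine ⟨hint, (integral_mono hint hDint hdom).trans ?_⟩
  rw [integral_finset_sum _ fun ρ _ => (dg16_shift L hL0 _).1.const_mul _, Finset.mul_sum]
  refine Finset.sum_le_sum fun ρ _ => ?_
  rw [integral_const_mul, (dg16_shift L hL0 _).2]
  have h5 : 0 ≤ mx ρ * Real.exp (r * |L * ((ρ : ℂ).re - 1 / 2)|) / (L * D) := by
    have := mx_nonneg (ρ : ℂ)
    positivity
  calc mx ρ * (C0 ^ r * Real.exp (r * |L * ((ρ : ℂ).re - 1 / 2)|) / D) * ((∫ x, dg16 x) / L)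
      = (C0 ^ r * (∫ x, dg16 x)) * (mx ρ * Real.exp (r * |L * ((ρ : ℂ).re - 1 / 2)|) / (L * D)) := by
        field_simp
    _ ≤ (C0 ^ r * (∫ x, dg16 x) + 1) * (mx ρ * Real.exp (r * |L * ((ρ : ℂ).re - 1 / 2)|) / (L * D)) :=
        mul_le_mul_of_nonneg_right (by linarith) h5
    _ = _ := by ring

open Classical in
/-- The zeros at distance more than `D / L` are small outside a set of measure `ε X`. -/
theorem weak_far_gen (f : TF) {r η ε A : ℝ} (hr : 0 < r) (hr1 : r ≤ 1) (hη : 0 < η) (hε : 0 < ε) (hA : 0 < A) :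
    ∃ D₀ : ℝ, 1 ≤ D₀ ∧ ∀ L X D : ℝ, 1 ≤ L → 0 < X → D₀ ≤ D → ∀ F : Finset ZS,
      ∑ ρ ∈ F, mx ρ * Real.exp (r * |L * ((ρ : ℂ).re - 1 / 2)|) ≤ A * (X * L) →
      volume {t : ℝ | η < ∑ ρ ∈ F, mx ρ * (if D < L * |t - (ρ : ℂ).im| then |kz f.h L t ρ| else 0)} ≤ ENNReal.ofReal (ε * X) := by
  obtain ⟨C, hC, hint⟩ := int_rpow_far f hr hr1
  have hηr : 0 < η ^ r := Real.rpow_pos_of_pos hη r
  refine ⟨max 1 (C * A / (ε * η ^ r)), le_max_left _ _, fun L X D hL hX hD F hF => ?_⟩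
  have hD1 : 1 ≤ D := (le_max_left _ _).trans hD
  have hD0 : 0 < D := by linarith
  have hD2 : C * A / (ε * η ^ r) ≤ D := (le_max_right _ _).trans hD
  have hL0 : 0 < L := by linarith
  obtain ⟨hi, hb⟩ := hint L D hL hD1 F
  have hA' : ∫ t, (∑ ρ ∈ F, mx ρ * (if D < L * |t - (ρ : ℂ).im| then |kz f.h L t ρ| else 0)) ^ r ≤ ε * η ^ r * X := by
    refine hb.trans ?_
    calc C / (L * D) * ∑ ρ ∈ F, mx ρ * Real.exp (r * |L * ((ρ : ℂ).re - 1 / 2)|) ≤ C / (L * D) * (A * (X * L)) :=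
          mul_le_mul_of_nonneg_left hF (by positivity)
      _ = C * A / D * X := by field_simp
      _ ≤ ε * η ^ r * X := by
          refine mul_le_mul_of_nonneg_right ?_ hX.le
          rw [div_le_iff₀ hD0]
          rw [div_le_iff₀ (by positivity)] at hD2
          linarith
  have hfin := weak_cheb (fun t => ∑ ρ ∈ F, mx ρ * (if D < L * |t - (ρ : ℂ).im| then |kz f.h L t ρ| else 0))
    (fun t => Finset.sum_nonneg fun ρ _ => mul_nonneg (mx_nonneg _) (by split_ifs; exacts [abs_nonneg _, le_rfl])) hr hη hi hA'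
  have e : ε * η ^ r * X / η ^ r = ε * X := by
    field_simp
  rw [e] at hfin
  exact hfin

end Pool.Agent.Helper60.ES
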