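import Pool.Agent.Helper60.ES.Z0

/-!
# ES: the far zeros, with a rate
-/

set_option autoImplicit false
open MeasureTheory Set Filter Topology
open Pool.Agent.Helper57.Zeta Pool.Agent.Helper57.PC Pool.Agent.Helper57.LH Pool.Agent.Helper78.SG
open Pool.Agent.Helper4.SH Pool.Agent.Helper69 Pool.Agent.Helper69.PP Pool.Agent.Helper22.SI
open Pool.Agent.Helper69.ES

namespace Pool.Agent.Helper60.ES

open Classical in
/-- The zeros at distance more than `D / L`, with a rate. -/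
theorem weak_far_rate (f : TF) {r A : ℝ} (hr : 0 < r) (hr1 : r ≤ 1) (hA : 0 < A) :
    ∃ C : ℝ, 0 < C ∧ ∀ L X D η : ℝ, 1 ≤ L → 0 < X → 1 ≤ D → 0 < η → ∀ F : Finset ZS,
      ∑ ρ ∈ F, mx ρ * Real.exp (r * |L * ((ρ : ℂ).re - 1 / 2)|) ≤ A * (X * L) →
      volume {t : ℝ | η < ∑ ρ ∈ F, mx ρ * (if D < L * |t - (ρ : ℂ).im| then |kz f.h L t ρ| else 0)} ≤
        ENNReal.ofReal (C / (D * η ^ r) * X) := by
  obtain ⟨C, hC, hint⟩ := int_rpow_far f hr hr1
  refine ⟨C * A, by positivity, fun L X D η hL hX hD1 hη F hF => ?_⟩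
  have hηr : 0 < η ^ r := Real.rpow_pos_of_pos hη r
  have hD0 : 0 < D := by linarith
  have hL0 : 0 < L := by linarith
  obtain ⟨hi, hb⟩ := hint L D hL hD1 F
  have hA' : ∫ t, (∑ ρ ∈ F, mx ρ * (if D < L * |t - (ρ : ℂ).im| then |kz f.h L t ρ| else 0)) ^ r ≤ C * A / D * X := by
    refine hb.trans ?_
    calc C / (L * D) * ∑ ρ ∈ F, mx ρ * Real.exp (r * |L * ((ρ : ℂ).re - 1 / 2)|) ≤ C / (L * D) * (A * (X * L)) :=
          mul_le_mul_of_nonneg_left hF (by positivity)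
      _ = C * A / D * X := by field_simp
  have hfin := weak_cheb (fun t => ∑ ρ ∈ F, mx ρ * (if D < L * |t - (ρ : ℂ).im| then |kz f.h L t ρ| else 0))
    (fun t => Finset.sum_nonneg fun ρ _ => mul_nonneg (mx_nonneg _) (by split_ifs; exacts [abs_nonneg _, le_rfl])) hr hη hi hA'
  have e : C * A / D * X / η ^ r = C * A / (D * η ^ r) * X := by
    field_simp
  rw [e] at hfin
  exact hfin

/-- Z0 with a rate: `x ≥ x0` does not depend on `D`, `η`. -/
theorem far_rate (f : TF) : ∃ r C : ℝ, 0 < r ∧ r ≤ 1 ∧ 0 < C ∧ ∀ᶠ x : ℝ in atTop, ∀ D η : ℝ, 1 ≤ D → 0 < η →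
    volume {t : ℝ | η < Far f.h D x t} ≤ ENNReal.ofReal (C / (D * η ^ r) * x) := by
  classical
  obtain ⟨κ, C, hκ, hC, hexp⟩ := exp_moment
  obtain ⟨r, hr⟩ : ∃ r, r = min (κ / 2) 1 := ⟨_, rfl⟩
  have hr0 : 0 < r := by
    rw [hr]
    exact lt_min (by linarith) one_pos
  have hr1 : r ≤ 1 := by
    rw [hr]
    exact min_le_right _ _
  have hrκ : 2 * r ≤ κ := by
    have : r ≤ κ / 2 := by
      rw [hr]
      exact min_le_left _ _
    linarith
  obtain ⟨C1, hC1, hfar⟩ := weak_far_rate f (A := 2 * C) hr0 hr1 (by positivity)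
  refine ⟨r, C1 * 2 ^ r, hr0, hr1, by positivity, ?_⟩
  have htend : Tendsto (fun x : ℝ => x + x) atTop atTop := by
    refine tendsto_atTop_mono' atTop ?_ tendsto_id
    filter_upwards [eventually_ge_atTop (0:ℝ)] with x hx
    show x ≤ x + x
    linarith
  filter_upwards [htend.eventually hexp, eventually_ge_atTop (Real.exp 1)] with x hx hxe
  intro D η hD hη
  have hx0 : 0 < x := lt_of_lt_of_le (Real.exp_pos 1) hxe
  have hL : 1 ≤ Real.log x := by
    rw [Real.le_log_iff_exp_le hx0]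
    exact hxe
  have hL0 : 0 < Real.log x := by linarith
  have hx2 : 2 ≤ x := by
    have := Real.add_one_le_exp (1:ℝ)
    linarith
  have hlog2 : Real.log x ≤ Real.log (x + x) := Real.log_le_log hx0 (by linarith)
  have hlog2' : Real.log (x + x) ≤ 2 * Real.log x := by
    have h1 : Real.log (x + x) ≤ Real.log (x * x) := Real.log_le_log (by linarith) (by nlinarith)
    rw [Real.log_mul hx0.ne' hx0.ne'] at h1
    linarith
  have hsum : ∑ ρ ∈ SM.ZJ x x, mx ρ * Real.exp (r * |2 * Real.log x * ((ρ : ℂ).re - 1 / 2)|) ≤ 2 * C * (x * (2 * Real.log x)) := by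
    calc ∑ ρ ∈ SM.ZJ x x, mx ρ * Real.exp (r * |2 * Real.log x * ((ρ : ℂ).re - 1 / 2)|)
        ≤ ∑ ρ ∈ SM.ZJ x x, mx ρ * Real.exp (κ * |Real.log (x + x) * ((ρ : ℂ).re - 1 / 2)|) := by
          refine Finset.sum_le_sum fun ρ _ => ?_
          refine mul_le_mul_of_nonneg_left ?_ (mx_nonneg _)
          refine Real.exp_le_exp.2 ?_
          have h2 := abs_nonneg ((ρ : ℂ).re - 1 / 2)
          rw [abs_mul, abs_mul (Real.log (x + x)), abs_of_pos (by positivity : (0:ℝ) < 2 * Real.log x),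
            abs_of_pos (by linarith : 0 < Real.log (x + x))]
          calc r * (2 * Real.log x * |(ρ : ℂ).re - 1 / 2|) = (2 * r) * (Real.log x * |(ρ : ℂ).re - 1 / 2|) := by ring
            _ ≤ κ * (Real.log (x + x) * |(ρ : ℂ).re - 1 / 2|) :=
              mul_le_mul hrκ (mul_le_mul_of_nonneg_right hlog2 h2) (by positivity) hκ.le
      _ ≤ ∑ ρ ∈ ZT (x + x), mx ρ * Real.exp (κ * |Real.log (x + x) * ((ρ : ℂ).re - 1 / 2)|) :=
          Finset.sum_le_sum_of_subset_of_nonneg (Finset.filter_subset _ _)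
            (fun ρ _ _ => mul_nonneg (mx_nonneg _) (Real.exp_pos _).le)
      _ ≤ C * ((x + x) * Real.log (x + x)) := hx
      _ ≤ C * ((x + x) * (2 * Real.log x)) := by gcongr
      _ = 2 * C * (x * (2 * Real.log x)) := by ring
  have h3 := hfar (2 * Real.log x) x (2 * D) (η / 2) (by linarith) hx0 (by linarith) (by positivity) (SM.ZJ x x) hsum
  have h4 : C1 / (2 * D * (η / 2) ^ r) * x ≤ C1 * 2 ^ r / (D * η ^ r) * x := by
    refine mul_le_mul_of_nonneg_right ?_ hx0.le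
    have hηr : 0 < η ^ r := Real.rpow_pos_of_pos hη r
    have h2r : 0 < (2:ℝ) ^ r := by positivity
    rw [Real.div_rpow hη.le (by norm_num)]
    have e : C1 / (2 * D * (η ^ r / 2 ^ r)) = C1 * 2 ^ r / (D * η ^ r) / 2 := by
      field_simp
    rw [e]
    have : 0 < C1 * 2 ^ r / (D * η ^ r) := by positivity
    linarith
  refine le_trans (measure_mono ?_) (h3.trans (ENNReal.ofReal_le_ofReal h4))
  intro t ht
  simp only [Set.mem_ofPred_eq] at ht ⊢
  rw [div_lt_iff₀ (by norm_num : (0:ℝ) < 2)]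
  refine lt_of_lt_of_eq ht ?_
  unfold Far kzs
  rw [Finset.sum_mul]
  refine Finset.sum_congr rfl fun ρ _ => ?_
  by_cases h : D < |t - (ρ : ℂ).im| * Real.log x
  · rw [if_pos h, if_pos (by linarith : 2 * D < 2 * Real.log x * |t - (ρ : ℂ).im|), abs_mul, abs_of_pos (by norm_num : (0:ℝ) < 2)]
    ring
  · rw [if_neg h, if_neg (by rw [not_lt] at h ⊢; linarith : ¬ 2 * D < 2 * Real.log x * |t - (ρ : ℂ).im|)]
    ring

end Pool.Agent.Helper60.ES
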