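import Pool.Agent.Helper60.ES.Far
import Pool.Agent.Helper69.ES.Defs

/-!
# ES, block Z0: the far zeros
-/

set_option autoImplicit false
open MeasureTheory Set Filter Topology
open Pool.Agent.Helper57.Zeta Pool.Agent.Helper57.PC Pool.Agent.Helper57.LH Pool.Agent.Helper78.SG
open Pool.Agent.Helper4.SH Pool.Agent.Helper69 Pool.Agent.Helper69.PP Pool.Agent.Helper22.SI
open Pool.Agent.Helper69.ES

namespace Pool.Agent.Helper60.ES

/-- Z0 -/
theorem far_small (f : TF) {η ε : ℝ} (hη : 0 < η) (hε : 0 < ε) : ∃ D0 : ℝ, 0 < D0 ∧ ∀ D : ℝ, D0 ≤ D → ∀ᶠ x : ℝ in atTop,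
    volume {t : ℝ | η < Far f.h D x t} ≤ ENNReal.ofReal (ε * x) := by
  classical
  obtain ⟨κ, C, hκ, hC, hexp⟩ := exp_moment
  obtain ⟨r, hr⟩ : ∃ r, r = min (κ / 2) 1 := ⟨_, rfl⟩
  have hr0 : 0 < r := by
    rw [hr]
    exact lt_min (by linarith) one_pos
  have hr1 : r ≤ 1 := by
    rw [hr]
    exact min_le_right _ _
  have hrκ : 2 * r ≤ κ := by
    have : r ≤ κ / 2 := by
      rw [hr]
      exact min_le_left _ _
    linarith
  obtain ⟨D₀, hD₀, hfar⟩ := weak_far_gen f (η := η / 2) (ε := ε) (A := 2 * C) hr0 hr1 (by positivity) hε (by positivity)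
  refine ⟨D₀, by linarith, fun D hD => ?_⟩
  have htend : Tendsto (fun x : ℝ => x + x) atTop atTop := by
    refine tendsto_atTop_mono' atTop ?_ tendsto_id
    filter_upwards [eventually_ge_atTop (0:ℝ)] with x hx
    show x ≤ x + x
    linarith
  filter_upwards [htend.eventually hexp, eventually_ge_atTop (Real.exp 1)] with x hx hxe
  have hx0 : 0 < x := lt_of_lt_of_le (Real.exp_pos 1) hxe
  have hL : 1 ≤ Real.log x := by
    rw [Real.le_log_iff_exp_le hx0]
    exact hxe
  have hL0 : 0 < Real.log x := by linarith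
  have hx2 : 2 ≤ x := by
    have := Real.add_one_le_exp (1:ℝ)
    linarith
  have hlog2 : Real.log x ≤ Real.log (x + x) := Real.log_le_log hx0 (by linarith)
  have hlog2' : Real.log (x + x) ≤ 2 * Real.log x := by
    have h1 : Real.log (x + x) ≤ Real.log (x * x) := Real.log_le_log (by linarith) (by nlinarith)
    rw [Real.log_mul hx0.ne' hx0.ne'] at h1
    linarith
  have hsum : ∑ ρ ∈ SM.ZJ x x, mx ρ * Real.exp (r * |2 * Real.log x * ((ρ : ℂ).re - 1 / 2)|) ≤ 2 * C * (x * (2 * Real.log x)) := by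
    calc ∑ ρ ∈ SM.ZJ x x, mx ρ * Real.exp (r * |2 * Real.log x * ((ρ : ℂ).re - 1 / 2)|)
        ≤ ∑ ρ ∈ SM.ZJ x x, mx ρ * Real.exp (κ * |Real.log (x + x) * ((ρ : ℂ).re - 1 / 2)|) := by
          refine Finset.sum_le_sum fun ρ _ => ?_
          refine mul_le_mul_of_nonneg_left ?_ (mx_nonneg _)
          refine Real.exp_le_exp.2 ?_
          have h2 := abs_nonneg ((ρ : ℂ).re - 1 / 2)
          rw [abs_mul, abs_mul (Real.log (x + x)), abs_of_pos (by positivity : (0:ℝ) < 2 * Real.log x),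
            abs_of_pos (by linarith : 0 < Real.log (x + x))]
          calc r * (2 * Real.log x * |(ρ : ℂ).re - 1 / 2|) = (2 * r) * (Real.log x * |(ρ : ℂ).re - 1 / 2|) := by ring
            _ ≤ κ * (Real.log (x + x) * |(ρ : ℂ).re - 1 / 2|) :=
              mul_le_mul hrκ (mul_le_mul_of_nonneg_right hlog2 h2) (by positivity) hκ.le
      _ ≤ ∑ ρ ∈ ZT (x + x), mx ρ * Real.exp (κ * |Real.log (x + x) * ((ρ : ℂ).re - 1 / 2)|) :=
          Finset.sum_le_sum_of_subset_of_nonneg (Finset.filter_subset _ _)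
            (fun ρ _ _ => mul_nonneg (mx_nonneg _) (Real.exp_pos _).le)
      _ ≤ C * ((x + x) * Real.log (x + x)) := hx
      _ ≤ C * ((x + x) * (2 * Real.log x)) := by gcongr
      _ = 2 * C * (x * (2 * Real.log x)) := by ring
  have h3 := hfar (2 * Real.log x) x (2 * D) (by linarith) hx0 (by linarith) (SM.ZJ x x) hsum
  refine le_trans (measure_mono ?_) h3
  intro t ht
  simp only [Set.mem_ofPred_eq] at ht ⊢
  rw [div_lt_iff₀ (by norm_num : (0:ℝ) < 2)]
  refine lt_of_lt_of_eq ht ?_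
  unfold Far kzs
  rw [Finset.sum_mul]
  refine Finset.sum_congr rfl fun ρ _ => ?_
  by_cases h : D < |t - (ρ : ℂ).im| * Real.log x
  · rw [if_pos h, if_pos (by linarith : 2 * D < 2 * Real.log x * |t - (ρ : ℂ).im|), abs_mul, abs_of_pos (by norm_num : (0:ℝ) < 2)]
    ring
  · rw [if_neg h, if_neg (by rw [not_lt] at h ⊢; linarith : ¬ 2 * D < 2 * Real.log x * |t - (ρ : ℂ).im|)]
    ring

end Pool.Agent.Helper60.ES
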