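import Pool.Agent.Helper60.ES.Rate
import Pool.Agent.Helper69.ES.DefsR

/-!
# ES, block Z0r: the far zeros, with a rate
-/

set_option autoImplicit false
open MeasureTheory Set Filter Topology
open Pool.Agent.Helper57.Zeta Pool.Agent.Helper57.PC Pool.Agent.Helper57.LH Pool.Agent.Helper78.SG
open Pool.Agent.Helper4.SH Pool.Agent.Helper69.PP Pool.Agent.Helper22.SI
open Pool.Agent.Helper69.SM (wt)

namespace Pool.Agent.Helper60.ESR

open Pool.Agent.Helper69 Pool.Agent.Helper69.ES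

/-- Z0r -/
theorem far_rate (f : TF) : ∃ C κ : ℝ, 0 < C ∧ 0 < κ ∧ ∀ D : ℝ, 1 ≤ D → ∀ η : ℝ, 0 < η → η ≤ 1 → ∀ᶠ x : ℝ in atTop,
    volume {t : ℝ | η < Far f.h D x t} ≤ ENNReal.ofReal (C * D ^ (-κ) / η * x) := by
  obtain ⟨r, C, hr, hr1, hC, h⟩ := Pool.Agent.Helper60.ES.far_rate f
  refine ⟨C, 1, hC, one_pos, fun D hD η hη hη1 => ?_⟩
  filter_upwards [h, eventually_gt_atTop (0:ℝ)] with x hx hx0
  refine (hx D η hD hη).trans (ENNReal.ofReal_le_ofReal ?_)
  refine mul_le_mul_of_nonneg_right ?_ hx0.le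
  have hD0 : 0 < D := by linarith
  have h1 : η ≤ η ^ r := by
    have := Real.rpow_le_rpow_of_exponent_ge hη hη1 hr1
    rwa [Real.rpow_one] at this
  rw [Real.rpow_neg hD0.le, Real.rpow_one, ← div_eq_mul_inv, div_div]
  exact div_le_div_of_nonneg_left hC.le (by positivity) (mul_le_mul_of_nonneg_left h1 hD0.le)

end Pool.Agent.Helper60.ESR
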